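import Mathlib

/-!
# Discretely Lindelof spaces

`DiscretelyLindelof Z`: the closure of every discrete subset is Lindelof.
-/

set_option autoImplicit false

namespace Pool.Agent.Helper44.DL

open Set Topology Cardinal

universe u v

/-- `Z` is discretely Lindelof: the closure of each discrete subset of `Z` is Lindelof. -/
def DiscretelyLindelof (Z : Type u) [TopologicalSpace Z] : Prop :=
  ∀ D : Set Z, DiscreteTopology D → IsLindelof (closure D)

section Pick

variable {Z : Type u} [TopologicalSpace Z] [LinearOrder Z] [WellFoundedLT Z]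

/-- the recursion of Shapirovskii: `z` is picked if it is not in the closure of the earlier picked
points and not in the neighbourhoods `O a` of the earlier picked points `a` -/
noncomputable def Picked (O : Z → Set Z) : Z → Prop :=
  WellFounded.fix (C := fun _ => Prop) (wellFounded_lt (α := Z)) fun z IH =>
    z ∉ closure {a | ∃ h : a < z, IH a h} ∧ ∀ a (h : a < z), IH a h → z ∉ O a

theorem picked_iff (O : Z → Set Z) (z : Z) :
    Picked O z ↔ z ∉ closure {a | a < z ∧ Picked O a} ∧ ∀ a < z, Picked O a → z ∉ O a := by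
  have h : Picked O z = (z ∉ closure {a | ∃ _ : a < z, Picked O a} ∧
      ∀ a (_ : a < z), Picked O a → z ∉ O a) := by
    unfold Picked
    rw [WellFounded.fix_eq]
  rw [h]
  simp only [exists_prop]

/-- the set of the picked points -/
def pickSet (O : Z → Set Z) : Set Z := {z | Picked O z}

theorem picked_discrete {O : Z → Set Z} (hO : ∀ z, IsOpen (O z)) (hz : ∀ z, z ∈ O z)
    {S : Set Z} (hS : S ⊆ pickSet O) : DiscreteTopology S := by
  rw [discreteTopology_subtype_iff']
  intro z hzS
  have hP := (picked_iff O z).1 (hS hzS)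
  refine ⟨O z ∩ (closure {a | a < z ∧ Picked O a})ᶜ,
    (hO z).inter isClosed_closure.isOpen_compl, ?_⟩
  ext y
  constructor
  · rintro ⟨⟨h1, h2⟩, h3⟩
    by_contra hne
    rcases lt_or_gt_of_ne (fun h => hne h) with h | h
    · exact h2 (subset_closure ⟨h, hS h3⟩)
    · exact ((picked_iff O y).1 (hS h3)).2 z h (hS hzS) h1
  · rintro rfl
    exact ⟨⟨hz _, hP.1⟩, hzS⟩

theorem picked_cover (O : Z → Set Z) (z : Z) :
    z ∈ pickSet O ∨ z ∈ closure {a | a < z ∧ Picked O a} ∨ ∃ a < z, Picked O a ∧ z ∈ O a := by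
  by_cases h : Picked O z
  · exact Or.inl h
  · right
    rw [picked_iff] at h
    by_contra hcon
    push Not at hcon
    exact h ⟨hcon.1, fun a ha hp hza => hcon.2 a ha hp hza⟩

end Pick

/-- Shapirovskii's lemma. -/
theorem exists_discrete_cover {Z : Type u} [TopologicalSpace Z] (O : Z → Set Z)
    (hO : ∀ z, IsOpen (O z)) (hz : ∀ z, z ∈ O z) :
    ∃ A : Set Z, DiscreteTopology A ∧ ∀ z, z ∈ closure A ∨ ∃ a ∈ A, z ∈ O a := by
  let _ : LinearOrder Z := IsWellOrder.linearOrder (WellOrderingRel (α := Z))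
  have : WellFoundedLT Z := (WellOrderingRel.isWellOrder (α := Z)).toIsWellFounded
  refine ⟨pickSet O, picked_discrete hO hz le_rfl, fun z => ?_⟩
  rcases picked_cover O z with h | h | ⟨a, ha, hp, hza⟩
  · exact Or.inl (subset_closure h)
  · exact Or.inl (closure_mono (fun a ha => ha.2) h)
  · exact Or.inr ⟨a, hp, hza⟩

/-- closed subspaces -/
theorem DiscretelyLindelof.closed {Y : Type v} {Z : Type u} [TopologicalSpace Y]
    [TopologicalSpace Z] (hZ : DiscretelyLindelof Z) {f : Y → Z} (hf : IsClosedEmbedding f) :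
    DiscretelyLindelof Y := by
  intro D hD
  have h1 : DiscreteTopology (f '' D) := by
    rw [discreteTopology_subtype_iff'] at hD ⊢
    rintro _ ⟨y, hy, rfl⟩
    obtain ⟨u, hu, huy⟩ := hD y hy
    obtain ⟨w, hw, rfl⟩ := hf.isInducing.isOpen_iff.1 hu
    refine ⟨w, hw, ?_⟩
    ext z
    constructor
    · rintro ⟨h2, y', hy', rfl⟩
      have : y' ∈ f ⁻¹' w ∩ D := ⟨h2, hy'⟩
      rw [huy] at this
      rw [mem_singleton_iff] at this
      subst this
      rfl
    · intro h
      rw [mem_singleton_iff] at h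
      subst h
      have : y ∈ f ⁻¹' w ∩ D := by
        rw [huy]
        rfl
      exact ⟨this.1, y, hy, rfl⟩
  have h2 := hZ _ h1
  have h3 := hf.isLindelof_preimage h2
  refine h3.of_isClosed_subset isClosed_closure ?_
  intro y hy
  have := image_closure_subset_closure_image hf.continuous (mem_image_of_mem f hy)
  exact this

/-- In a discretely Lindelof space an increasing well ordered family of open sets, such that
every countable family of indices is bounded, which covers the space contains the whole space. -/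
theorem exists_eq_univ {Z : Type u} [TopologicalSpace Z] (hZ : DiscretelyLindelof Z)
    {I : Type v} [LinearOrder I] [WellFoundedLT I]
    (hI : ∀ s : Set I, s.Countable → ∃ b, ∀ i ∈ s, i ≤ b) (W : I → Set Z)
    (hW : ∀ i, IsOpen (W i))
    (hmono : ∀ i j, i ≤ j → W i ⊆ W j) (hcov : ∀ z, ∃ i, z ∈ W i) : ∃ i, ∀ z, z ∈ W i := by
  classical
  -- the least index
  have hmin : ∀ z, ∃ i, z ∈ W i ∧ ∀ j, z ∈ W j → i ≤ j := by
    intro z
    obtain ⟨m, hm, hm'⟩ := (wellFounded_lt (α := I)).has_min {i | z ∈ W i} (hcov z)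
    exact ⟨m, hm, fun j hj => not_lt.1 (hm' j hj)⟩
  choose al hal hal' using hmin
  let _ : LinearOrder Z := IsWellOrder.linearOrder (WellOrderingRel (α := Z))
  have : WellFoundedLT Z := (WellOrderingRel.isWellOrder (α := Z)).toIsWellFounded
  let O : Z → Set Z := fun z => W (al z)
  have hO : ∀ z, IsOpen (O z) := fun z => hW _
  have hz : ∀ z, z ∈ O z := hal
  have hD := picked_discrete hO hz (S := pickSet O) le_rfl
  have hL := hZ _ hD
  obtain ⟨r, hr, hcr⟩ := hL.elim_countable_subcover W hW (fun z _ => mem_iUnion.2 (hcov z))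
  obtain ⟨b, hb⟩ := hI r hr
  have hcl : closure (pickSet O) ⊆ W b := by
    intro z hzc
    obtain ⟨i, hi, hzi⟩ := mem_iUnion₂.1 (hcr hzc)
    exact hmono i b (hb i hi) hzi
  refine ⟨b, fun z => ?_⟩
  rcases picked_cover O z with h | h | ⟨a, ha, hp, hza⟩
  · exact hcl (subset_closure h)
  · exact hcl (closure_mono (fun a ha => ha.2) h)
  · have h1 : al a ≤ b := hal' a b (hcl (subset_closure hp))
    exact hmono _ _ h1 hza

/-- In a discretely Lindelof space every open cover of cardinality at most `ℵ_ n` has a countable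
subcover. -/
theorem countable_subcover_nat {Z : Type u} [TopologicalSpace Z] (hZ : DiscretelyLindelof Z)
    (n : ℕ) : ∀ {ι : Type v} (V : ι → Set Z), (∀ i, IsOpen (V i)) → (∀ z, ∃ i, z ∈ V i) →
      #ι ≤ ℵ_ (n : Ordinal) → ∃ r : Set ι, r.Countable ∧ ∀ z, ∃ i ∈ r, z ∈ V i := by
  induction n with
  | zero =>
    intro ι V hV hc hι
    have : Countable ι := by
      rw [← mk_le_aleph0_iff]
      simpa using hι
    exact ⟨Set.univ, Set.countable_univ, fun z => by simpa using hc z⟩
  | succ n ih =>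
    intro ι V hV hc hι
    rcases isEmpty_or_nonempty ι with he | hne
    · exact ⟨∅, countable_empty, fun z => he.elim (hc z).choose⟩
    let K := (ℵ_ ((n + 1 : ℕ) : Ordinal.{v})).ord.ToType
    have hK : #K = ℵ_ ((n + 1 : ℕ) : Ordinal.{v}) := by simp [K]
    have hle : #ι ≤ #K := hι.trans_eq hK.symm
    obtain ⟨emb⟩ := (Cardinal.le_def ι K).1 hle
    have hg : Function.Surjective (Function.invFun emb) := Function.invFun_surjective emb.injective
    set g : K → ι := Function.invFun emb with hgdef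
    have hsucc : ℵ_ ((n + 1 : ℕ) : Ordinal.{v}) = Order.succ (ℵ_ (n : Ordinal.{v})) := by
      rw [succ_aleph]
      push_cast
      rfl
    have hIic : ∀ k : K, #(Iic k) ≤ ℵ_ (n : Ordinal.{v}) := by
      intro k
      have h0 : #(Iio k) < ℵ_ ((n + 1 : ℕ) : Ordinal.{v}) := by
        have h00 : #(Iio k) < #K := mk_Iio_lt k (by simp [K])
        exact h00.trans_eq hK
      have h1 : #(Iio k) ≤ ℵ_ (n : Ordinal.{v}) := Order.lt_succ_iff.1 (h0.trans_eq hsucc)
      have h2 : #(Iic k) ≤ #(Iio k) + 1 := by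
        rw [← Iio_insert]
        exact mk_insert_le
      refine h2.trans ?_
      exact add_le_of_le (aleph0_le_aleph _) h1 (one_le_aleph0.trans (aleph0_le_aleph _))
    have hbdd : ∀ s : Set K, s.Countable → ∃ b, ∀ i ∈ s, i ≤ b := by
      intro s hs
      by_contra hcon
      push Not at hcon
      have hun : (⋃ i ∈ s, Iic i) = Set.univ := by
        refine eq_univ_of_forall fun k => ?_
        obtain ⟨i, hi, hki⟩ := hcon k
        exact mem_iUnion₂.2 ⟨i, hi, hki.le⟩
      have h1 : #(⋃ i ∈ s, Iic i : Set K) ≤ #s * ⨆ i : s, #(Iic i.1) := mk_biUnion_le _ s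
      have h2 : #s * (⨆ i : s, #(Iic i.1)) ≤ ℵ_ (n : Ordinal.{v}) := by
        refine mul_le_of_le (aleph0_le_aleph _) ?_ ?_
        · exact (mk_le_aleph0_iff.2 hs.to_subtype).trans (aleph0_le_aleph _)
        · exact ciSup_le' fun i => hIic i.1
      have h3 : #(⋃ i ∈ s, Iic i : Set K) = Order.succ (ℵ_ (n : Ordinal.{v})) := by
        rw [hun]
        exact mk_univ.trans (hK.trans hsucc)
      exact absurd (h3.symm.le.trans (h1.trans h2)) (not_le.2 (Order.lt_succ _))
    obtain ⟨k, hk⟩ := exists_eq_univ hZ hbdd (fun k => ⋃ j ∈ Iic k, V (g j))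
      (fun k => isOpen_biUnion fun j _ => hV _)
      (fun i j hij => biUnion_subset_biUnion_left (Iic_subset_Iic.2 hij))
      (fun z => by
        obtain ⟨i, hi⟩ := hc z
        obtain ⟨j, rfl⟩ := hg i
        exact ⟨j, mem_iUnion₂.2 ⟨j, mem_Iic.2 le_rfl, hi⟩⟩)
    obtain ⟨r, hr, hcr⟩ := ih (fun j : Iic k => V (g j.1)) (fun j => hV _) (fun z => by
      obtain ⟨j, hj, hz⟩ := mem_iUnion₂.1 (hk z)
      exact ⟨⟨j, hj⟩, hz⟩) (hIic k)
    refine ⟨(fun j : Iic k => g j.1) '' r, hr.image _, fun z => ?_⟩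
    obtain ⟨j, hj, hz⟩ := hcr z
    exact ⟨g j.1, mem_image_of_mem _ hj, hz⟩

/-- In a discretely Lindelof space every open cover of cardinality less than `ℵ_ω` has a
countable subcover. -/
theorem countable_subcover {Z : Type u} [TopologicalSpace Z] (hZ : DiscretelyLindelof Z)
    {ι : Type v} (V : ι → Set Z) (hV : ∀ i, IsOpen (V i)) (hc : ∀ z, ∃ i, z ∈ V i)
    (hι : #ι < ℵ_ Ordinal.omega0) : ∃ r : Set ι, r.Countable ∧ ∀ z, ∃ i ∈ r, z ∈ V i := by
  obtain ⟨n, hn⟩ : ∃ n : ℕ, #ι ≤ ℵ_ (n : Ordinal) := by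
    rw [aleph_limit Ordinal.isSuccLimit_omega0] at hι
    obtain ⟨⟨a, ha⟩, hia⟩ := exists_lt_of_lt_ciSup' hι
    obtain ⟨n, rfl⟩ := Ordinal.lt_omega0.1 ha
    exact ⟨n, hia.le⟩
  exact countable_subcover_nat hZ n V hV hc hn

/-- A discretely Lindelof space with fewer than `ℵ_ω` points is Lindelof. -/
theorem lindelof_of_card_lt {Z : Type u} [TopologicalSpace Z] (hZ : DiscretelyLindelof Z)
    (hc : #Z < ℵ_ Ordinal.omega0) : LindelofSpace Z := by
  rw [← isLindelof_univ_iff]
  refine isLindelof_of_countable_subcover fun {ι} U hU hcov => ?_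
  have hcov' : ∀ z, ∃ i, z ∈ U i := fun z => mem_iUnion.1 (hcov (mem_univ z))
  choose i hi using hcov'
  obtain ⟨r, hr, hcr⟩ := countable_subcover hZ (fun z => U (i z)) (fun z => hU _)
    (fun z => ⟨z, hi z⟩) hc
  refine ⟨i '' r, hr.image _, fun z _ => ?_⟩
  obtain ⟨y, hy, hz⟩ := hcr z
  exact mem_iUnion₂.2 ⟨i y, mem_image_of_mem _ hy, hz⟩

end Pool.Agent.Helper44.DL
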