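import Pool.Agent.Helper44.DL.Basic

/-!
# Coding the points of a space by small sets

If closures of discrete sets inject in `K` and points are intersections of families of open sets
indexed by `J`, then the space injects in `Set (K × K) × (K → Option J) × Option K`
(Hajnal and Juhasz).
-/

set_option autoImplicit false

namespace Pool.Agent.Helper44.DL

open Set Topology Cardinal

universe u

section

variable {X : Type u} [TopologicalSpace X] [LinearOrder X] [WellFoundedLT X] {J K : Type}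

/-- `b` is the least point outside of the closure of `S` and of the sets `V a (η a)`, `a ∈ S` -/
def Least (V : X → J → Set X) (S : Set X) (η : X → J) (b : X) : Prop :=
  (b ∉ closure S ∧ ∀ a ∈ S, b ∉ V a (η a)) ∧
    ∀ z, z ∉ closure S → (∀ a ∈ S, z ∉ V a (η a)) → b ≤ z

theorem Least.unique {V : X → J → Set X} {S : Set X} {η η' : X → J} {b b' : X}
    (h : Least V S η b) (h' : Least V S η' b') (e : ∀ a ∈ S, η a = η' a) : b = b' := by
  refine le_antisymm (h.2 b' h'.1.1 fun a ha => ?_) (h'.2 b h.1.1 fun a ha => ?_)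
  · rw [e a ha]
    exact h'.1.2 a ha
  · rw [← e a ha]
    exact h.1.2 a ha

open Classical in
/-- the neighbourhood assignment for the point `p` -/
noncomputable def assign (V : X → J → Set X) (ξ : X → X → J) (p : X) : X → Set X :=
  fun x => if x = p then univ else V x (ξ x p)

/-- the picked points before `p` -/
def Bset (V : X → J → Set X) (ξ : X → X → J) (p : X) : Set X :=
  {a | a < p ∧ Picked (assign V ξ p) a}

theorem Bset_discrete {V : X → J → Set X} (hVo : ∀ x j, IsOpen (V x j))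
    (hVm : ∀ x j, x ∈ V x j) (ξ : X → X → J) (p : X) : DiscreteTopology (Bset V ξ p) := by
  refine picked_discrete (O := assign V ξ p) (fun z => ?_) (fun z => ?_) (fun a ha => ha.2)
  · unfold assign
    split_ifs
    · exact isOpen_univ
    · exact hVo _ _
  · unfold assign
    split_ifs
    · exact mem_univ _
    · exact hVm _ _

theorem assign_ne {V : X → J → Set X} {ξ : X → X → J} {a p : X} (h : a ≠ p) :
    assign V ξ p a = V a (ξ a p) := if_neg h

theorem least_of_lt {V : X → J → Set X} {ξ : X → X → J} {p b : X}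
    (hb : b ≤ p) (h1 : b ∉ closure {a | a < b ∧ Picked (assign V ξ p) a})
    (h2 : ∀ a < b, Picked (assign V ξ p) a → b ∉ V a (ξ a p)) :
    Least V {a | a < b ∧ Picked (assign V ξ p) a} (fun a => ξ a p) b := by
  refine ⟨⟨h1, fun a ha => h2 a ha.1 ha.2⟩, fun z hz1 hz2 => ?_⟩
  by_contra hlt
  rw [not_le] at hlt
  rcases picked_cover (assign V ξ p) z with h | h | ⟨a, ha, hp, hza⟩
  · exact hz1 (subset_closure ⟨hlt, h⟩)
  · have hs : {a | a < z ∧ Picked (assign V ξ p) a} ⊆ {a | a < b ∧ Picked (assign V ξ p) a} :=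
      fun a ha => ⟨ha.1.trans hlt, ha.2⟩
    exact hz1 (closure_mono hs h)
  · rw [assign_ne ((ha.trans (hlt.trans_le hb)).ne)] at hza
    exact hz2 a ⟨ha.trans hlt, hp⟩ hza

theorem least_mem {V : X → J → Set X} {ξ : X → X → J} {p b : X} (hb : b ∈ Bset V ξ p) :
    Least V {a | a ∈ Bset V ξ p ∧ a < b} (fun a => ξ a p) b := by
  have hP := (picked_iff _ _).1 hb.2
  have e : {a | a ∈ Bset V ξ p ∧ a < b} = {a | a < b ∧ Picked (assign V ξ p) a} := by
    ext a
    constructor
    · rintro ⟨h1, h2⟩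
      exact ⟨h2, h1.2⟩
    · rintro ⟨h1, h2⟩
      exact ⟨⟨h1.trans hb.1, h2⟩, h1⟩
  rw [e]
  refine least_of_lt hb.1.le hP.1 fun a ha hp => ?_
  rw [← assign_ne (V := V) (ξ := ξ) (ha.trans hb.1).ne]
  exact hP.2 a ha hp

theorem least_self {V : X → J → Set X} {ξ : X → X → J}
    (hξ : ∀ x p, p ≠ x → p ∉ V x (ξ x p)) {p : X} (hp : p ∉ closure (Bset V ξ p)) :
    Least V (Bset V ξ p) (fun a => ξ a p) p :=
  least_of_lt le_rfl hp fun a ha _ => hξ a p ha.ne'

open Classical in
/-- the code of the point `p` -/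
noncomputable def code (V : X → J → Set X) (ξ : X → X → J) (G : Set X → X → K) (p : X) :
    Set (K × K) × (K → Option J) × Option K :=
  ⟨{k | ∃ a ∈ Bset V ξ p, ∃ b ∈ Bset V ξ p,
      G (Bset V ξ p) a = k.1 ∧ G (Bset V ξ p) b = k.2 ∧ a < b},
    fun k => if h : ∃ b ∈ Bset V ξ p, G (Bset V ξ p) b = k then some (ξ h.choose p) else none,
    if p ∈ closure (Bset V ξ p) then some (G (Bset V ξ p) p) else none⟩

/-- one half of the induction step -/
theorem step {B B' : Set X} {g g' : X → K} {V : X → J → Set X} {η η' : X → J}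
    (hg : InjOn g B) (hg' : InjOn g' B')
    (hB : ∀ b ∈ B, Least V {a | a ∈ B ∧ a < b} η b)
    (hB' : ∀ b ∈ B', Least V {a | a ∈ B' ∧ a < b} η' b)
    (hR : ∀ k l : K, (∃ a ∈ B, ∃ b ∈ B, g a = k ∧ g b = l ∧ a < b) ↔
      ∃ a ∈ B', ∃ b ∈ B', g' a = k ∧ g' b = l ∧ a < b)
    (hE : ∀ b ∈ B, ∃ b' ∈ B', g' b' = g b)
    (hη : ∀ a ∈ B, ∀ a' ∈ B', g a = g' a' → η a = η' a')
    {b : X} (hb : b ∈ B) (ih : ∀ a < b, a ∈ B → a ∈ B' ∧ g' a = g a) :
    b ∈ B' ∧ g' b = g b := by
  obtain ⟨b', hb', hbb⟩ := hE b hb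
  have e : {a | a ∈ B' ∧ a < b'} = {a | a ∈ B ∧ a < b} := by
    ext a
    constructor
    · rintro ⟨h1, h2⟩
      obtain ⟨a1, ha1, b1, hb1, e1, e2, hlt⟩ := (hR (g' a) (g b)).2 ⟨a, h1, b', hb', rfl, hbb, h2⟩
      have hb1b : b1 = b := hg hb1 hb e2
      subst hb1b
      obtain ⟨h3, h4⟩ := ih a1 hlt ha1
      have : a1 = a := hg' h3 h1 (h4.trans e1)
      subst this
      exact ⟨ha1, hlt⟩
    · rintro ⟨h1, h2⟩
      obtain ⟨h3, h4⟩ := ih a h2 h1
      obtain ⟨a1, ha1, b1, hb1, e1, e2, hlt⟩ := (hR (g a) (g b)).1 ⟨a, h1, b, hb, rfl, rfl, h2⟩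
      have h5 : b1 = b' := hg' hb1 hb' (e2.trans hbb.symm)
      have h6 : a1 = a := hg' ha1 h3 (e1.trans h4.symm)
      subst h5 h6
      exact ⟨h3, hlt⟩
  have h1 := hB b hb
  have h2 := hB' b' hb'
  rw [e] at h2
  have h3 : b = b' := h1.unique h2 fun a ha => by
    obtain ⟨h4, h5⟩ := ih a ha.2 ha.1
    exact hη a ha.1 a h4 h5.symm
  rw [h3]
  exact ⟨hb', by rw [hbb, h3]⟩

theorem code_injective {V : X → J → Set X} (hVo : ∀ x j, IsOpen (V x j))
    (hVm : ∀ x j, x ∈ V x j) {ξ : X → X → J} (hξ : ∀ x p, p ≠ x → p ∉ V x (ξ x p))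
    {G : Set X → X → K} (hG : ∀ D : Set X, DiscreteTopology D → InjOn (G D) (closure D)) :
    Function.Injective (code V ξ G) := by
  classical
  intro p q hpq
  have hGp : InjOn (G (Bset V ξ p)) (Bset V ξ p) :=
    (hG _ (Bset_discrete hVo hVm ξ p)).mono subset_closure
  have hGq : InjOn (G (Bset V ξ q)) (Bset V ξ q) :=
    (hG _ (Bset_discrete hVo hVm ξ q)).mono subset_closure
  have hcode : ∀ p k, (code V ξ G p).2.1 k =
      if h : ∃ b ∈ Bset V ξ p, G (Bset V ξ p) b = k then some (ξ h.choose p) else none :=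
    fun _ _ => rfl
  have hR : ∀ k l : K, (∃ a ∈ Bset V ξ p, ∃ b ∈ Bset V ξ p,
      G (Bset V ξ p) a = k ∧ G (Bset V ξ p) b = l ∧ a < b) ↔
      ∃ a ∈ Bset V ξ q, ∃ b ∈ Bset V ξ q,
        G (Bset V ξ q) a = k ∧ G (Bset V ξ q) b = l ∧ a < b := by
    intro k l
    have h1 : (k, l) ∈ (code V ξ G p).1 ↔ (k, l) ∈ (code V ξ G q).1 := by rw [hpq]
    exact h1
  -- labels
  have hval : ∀ p, InjOn (G (Bset V ξ p)) (Bset V ξ p) → ∀ b ∈ Bset V ξ p,
      (code V ξ G p).2.1 (G (Bset V ξ p) b) = some (ξ b p) := by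
    intro p hp b hb
    have hex : ∃ b' ∈ Bset V ξ p, G (Bset V ξ p) b' = G (Bset V ξ p) b := ⟨b, hb, rfl⟩
    rw [hcode, dif_pos hex]
    rw [hp hex.choose_spec.1 hb hex.choose_spec.2]
  have hE : ∀ p q, code V ξ G p = code V ξ G q → InjOn (G (Bset V ξ p)) (Bset V ξ p) →
      ∀ b ∈ Bset V ξ p, ∃ b' ∈ Bset V ξ q, G (Bset V ξ q) b' = G (Bset V ξ p) b := by
    intro p q hpq hp b hb
    by_contra hcon
    have h1 := hval p hp b hb
    rw [hpq, hcode, dif_neg hcon] at h1
    exact absurd h1 (by simp)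
  have hη : ∀ a ∈ Bset V ξ p, ∀ a' ∈ Bset V ξ q,
      G (Bset V ξ p) a = G (Bset V ξ q) a' → ξ a p = ξ a' q := by
    intro a ha a' ha' e
    have h1 := hval p hGp a ha
    have h2 := hval q hGq a' ha'
    rw [hpq, e, h2] at h1
    exact (Option.some_injective _ h1).symm
  -- the induction
  have key : ∀ b, (b ∈ Bset V ξ p → b ∈ Bset V ξ q ∧ G (Bset V ξ q) b = G (Bset V ξ p) b) ∧
      (b ∈ Bset V ξ q → b ∈ Bset V ξ p ∧ G (Bset V ξ p) b = G (Bset V ξ q) b) := by
    intro b
    induction b using (wellFounded_lt (α := X)).induction with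
    | _ b ih =>
      refine ⟨fun hb => ?_, fun hb => ?_⟩
      · exact step hGp hGq (fun b hb => least_mem hb) (fun b hb => least_mem hb) hR
          (hE p q hpq hGp) hη hb (fun a ha => (ih a ha).1)
      · exact step hGq hGp (fun b hb => least_mem hb) (fun b hb => least_mem hb)
          (fun k l => (hR k l).symm) (hE q p hpq.symm hGq)
          (fun a ha a' ha' e => (hη a' ha' a ha e.symm).symm) hb (fun a ha => (ih a ha).2)
  have hB : Bset V ξ p = Bset V ξ q :=
    Set.ext fun b => ⟨fun h => ((key b).1 h).1, fun h => ((key b).2 h).1⟩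
  have h3 : (if p ∈ closure (Bset V ξ p) then some (G (Bset V ξ p) p) else none) =
      if q ∈ closure (Bset V ξ q) then some (G (Bset V ξ q) q) else none := by
    have : (code V ξ G p).2.2 = (code V ξ G q).2.2 := by rw [hpq]
    exact this
  by_cases hp : p ∈ closure (Bset V ξ p)
  · rw [if_pos hp] at h3
    by_cases hq : q ∈ closure (Bset V ξ q)
    · rw [if_pos hq] at h3
      have h4 := Option.some_injective _ h3
      rw [← hB] at h4 hq
      exact hG _ (Bset_discrete hVo hVm ξ p) hp hq h4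
    · rw [if_neg hq] at h3
      exact absurd h3 (by simp)
  · rw [if_neg hp] at h3
    by_cases hq : q ∈ closure (Bset V ξ q)
    · rw [if_pos hq] at h3
      exact absurd h3 (by simp)
    · have h4 := least_self hξ hp
      have h5 := least_self hξ hq
      rw [← hB] at h5
      refine h4.unique h5 fun a ha => ?_
      exact hη a ha a (hB ▸ ha) (by rw [hB])

end

end Pool.Agent.Helper44.DL
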