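import Pool.Agent.Helper44.DL.Code

/-!
# Spaces whose complement of the diagonal is discretely Lindelof
-/

set_option autoImplicit false

namespace Pool.Agent.Helper44.DL

open Set Topology Cardinal

universe u

/-- The complement of the diagonal, a subspace of `X × X`. -/
abbrev Off (X : Type u) : Type u := {z : X × X // z.1 ≠ z.2}

variable {X : Type u} [TopologicalSpace X]

/-- the slice -/
def slice (p : X) : {x : X // x ≠ p} → Off X := fun x => ⟨(x.1, p), x.2⟩

omit [TopologicalSpace X] in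
theorem slice_injective (p : X) : Function.Injective (slice p) := by
  intro x y h
  have := congrArg (fun z : Off X => z.1.1) h
  exact Subtype.ext this

theorem slice_embedding (p : X) : IsEmbedding (slice p) := by
  refine ⟨⟨?_⟩, slice_injective p⟩
  have h1 : IsInducing (Subtype.val : Off X → X × X) := IsInducing.subtypeVal
  have h2 : IsInducing (Subtype.val : {x : X // x ≠ p} → X) := IsInducing.subtypeVal
  have h3 : IsInducing (fun x : X => (x, p)) := (isEmbedding_prodMkLeft p).isInducing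
  have h4 : IsInducing ((fun x : X => (x, p)) ∘ (Subtype.val : {x : X // x ≠ p} → X)) :=
    h3.comp h2
  have e : (fun x : X => (x, p)) ∘ (Subtype.val : {x : X // x ≠ p} → X) =
      Subtype.val ∘ slice p := rfl
  rw [e] at h4
  have hc : Continuous (slice p) := h1.continuous_iff.2 h4.continuous
  exact (IsInducing.of_comp hc continuous_subtype_val h4).eq_induced

theorem slice_closed [T1Space X] (p : X) : IsClosedEmbedding (slice p) := by
  refine ⟨slice_embedding p, ?_⟩
  have e : range (slice p) = (fun z : Off X => z.1.2) ⁻¹' {p} := by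
    ext z
    constructor
    · rintro ⟨x, rfl⟩
      rfl
    · intro h
      have h' : z.1.2 = p := h
      refine ⟨⟨z.1.1, fun h2 => z.2 (h2.trans h'.symm)⟩, ?_⟩
      apply Subtype.ext
      exact Prod.ext rfl h'.symm
  rw [e]
  exact isClosed_singleton.preimage (continuous_snd.comp continuous_subtype_val)

/-- If the complement of the diagonal is regular Hausdorff and `X` has three points then `X` is
regular and Hausdorff. -/
theorem t3_of_three [T3Space (Off X)] (h3 : ∃ a b c : X, a ≠ b ∧ a ≠ c ∧ b ≠ c) : T3Space X := by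
  have hex1 : ∀ x y : X, ∃ p, p ≠ x ∧ p ≠ y := by
    intro x y
    obtain ⟨a, b, c, hab, hac, hbc⟩ := h3
    by_contra hcon
    push Not at hcon
    have ha := hcon a
    have hb := hcon b
    have hc := hcon c
    by_cases h1 : a = x
    · have hbx : b ≠ x := fun h => hab (h1.trans h.symm)
      have hcx : c ≠ x := fun h => hac (h1.trans h.symm)
      exact hbc ((hb hbx).trans (hc hcx).symm)
    · have hay := ha h1
      by_cases h2 : b = x
      · have hcx : c ≠ x := fun h => hbc (h2.trans h.symm)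
        exact hac (hay.trans (hc hcx).symm)
      · exact hab (hay.trans (hb h2).symm)
  have hsub : ∀ p : X, T3Space {x : X // x ≠ p} := fun p => (slice_embedding p).t3Space
  have hT1 : T1Space X := by
    rw [t1Space_iff_exists_open]
    intro x y hxy
    obtain ⟨p, hpx, hpy⟩ := hex1 x y
    have := hsub p
    have h1 := t1Space_iff_exists_open.1 (inferInstance : T1Space {x : X // x ≠ p})
    obtain ⟨U, hU, hxU, hyU⟩ := @h1 ⟨x, hpx.symm⟩ ⟨y, hpy.symm⟩
      (fun h => hxy (congrArg Subtype.val h))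
    obtain ⟨W, hW, rfl⟩ := isOpen_induced_iff.1 hU
    exact ⟨W, hW, hxU, hyU⟩
  have hreg : ∀ x p : X, p ≠ x → ∀ s ∈ 𝓝 x, ∃ t ∈ 𝓝 x, IsClosed t ∧ t ⊆ s ∪ {p} := by
    intro x p hp s hs
    have := hsub p
    have h1 : (Subtype.val : {x : X // x ≠ p} → X) ⁻¹' s ∈ 𝓝 (⟨x, hp.symm⟩ : {x : X // x ≠ p}) :=
      continuous_subtype_val.continuousAt.preimage_mem_nhds hs
    obtain ⟨t, ht, htc, hts⟩ := exists_mem_nhds_isClosed_subset h1
    obtain ⟨C, hC, rfl⟩ := isClosed_induced_iff.1 htc
    refine ⟨C ∪ {p}, ?_, hC.union isClosed_singleton, ?_⟩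
    · have h2 : IsOpen {x : X | x ≠ p} := isOpen_ne
      have h3 : Subtype.val '' ((Subtype.val : {x : X // x ≠ p} → X) ⁻¹' C) ∈ 𝓝 x := by
        have h4 : IsOpenEmbedding (Subtype.val : {x : X // x ≠ p} → X) := h2.isOpenEmbedding_subtypeVal
        exact h4.image_mem_nhds.2 ht
      refine Filter.mem_of_superset h3 ?_
      rintro _ ⟨y, hy, rfl⟩
      exact Or.inl hy
    · rintro y (hy | hy)
      · by_cases hyp : y = p
        · exact Or.inr hyp
        · exact Or.inl (hts (show (⟨y, hyp⟩ : {x : X // x ≠ p}) ∈ _ from hy))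
      · exact Or.inr hy
  have hR : RegularSpace X := by
    refine RegularSpace.of_exists_mem_nhds_isClosed_subset fun x s hs => ?_
    obtain ⟨p, hp, _⟩ := hex1 x x
    obtain ⟨q, hq, hqp⟩ := hex1 x p
    obtain ⟨t, ht, htc, hts⟩ := hreg x p hp s hs
    obtain ⟨t', ht', htc', hts'⟩ := hreg x q hq s hs
    refine ⟨t ∩ t', Filter.inter_mem ht ht', htc.inter htc', ?_⟩
    rintro y ⟨h1, h2⟩
    rcases hts h1 with h | h
    · exact h
    · rcases hts' h2 with h' | h'
      · exact h'
      · exact absurd ((show y = q from h').symm.trans (show y = p from h)) hqp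
  exact {}

theorem t3_of [T3Space (Off X)] (h : T1Space X ∨ ∃ a b c : X, a ≠ b ∧ a ≠ c ∧ b ≠ c) :
    T3Space X := by
  by_cases h3 : ∃ a b c : X, a ≠ b ∧ a ≠ c ∧ b ≠ c
  · exact t3_of_three h3
  · have hT : T1Space X := h.resolve_right h3
    have hfin : Finite X := by
      by_contra hcon
      rw [not_finite_iff_infinite] at hcon
      obtain ⟨f⟩ : Nonempty (ℕ ↪ X) := ⟨Infinite.natEmbedding X⟩
      exact h3 ⟨f 0, f 1, f 2, f.injective.ne (by decide), f.injective.ne (by decide),
        f.injective.ne (by decide)⟩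
    have : DiscreteTopology X := inferInstance
    infer_instance

/-- the closure of a discrete set has a Lindelof square without the diagonal -/
theorem lindelof_square [T2Space X] (hX : DiscretelyLindelof (Off X)) {D : Set X}
    (hD : DiscreteTopology D) :
    IsLindelof {z : Off X | z.1.1 ∈ closure D ∧ z.1.2 ∈ closure D} := by
  have h1 : DiscreteTopology {z : Off X | z.1.1 ∈ D ∧ z.1.2 ∈ D} := by
    rw [discreteTopology_subtype_iff'] at hD ⊢
    rintro z ⟨hz1, hz2⟩
    obtain ⟨u, hu, hu'⟩ := hD _ hz1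
    obtain ⟨v, hv, hv'⟩ := hD _ hz2
    refine ⟨{w | w.1.1 ∈ u ∧ w.1.2 ∈ v}, ?_, ?_⟩
    · exact (hu.preimage (continuous_fst.comp continuous_subtype_val)).inter
        (hv.preimage (continuous_snd.comp continuous_subtype_val))
    · ext w
      constructor
      · rintro ⟨⟨h1, h2⟩, h3, h4⟩
        have e1 : w.1.1 = z.1.1 := by
          have : w.1.1 ∈ u ∩ D := ⟨h1, h3⟩
          rwa [hu'] at this
        have e2 : w.1.2 = z.1.2 := by
          have : w.1.2 ∈ v ∩ D := ⟨h2, h4⟩
          rwa [hv'] at this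
        exact Subtype.ext (Prod.ext e1 e2)
      · rintro rfl
        have e1 : w.1.1 ∈ u ∩ D := by rw [hu']; rfl
        have e2 : w.1.2 ∈ v ∩ D := by rw [hv']; rfl
        exact ⟨⟨e1.1, e2.1⟩, hz1, hz2⟩
  refine (hX _ h1).of_isClosed_subset ?_ ?_
  · exact (isClosed_closure.preimage (continuous_fst.comp continuous_subtype_val)).inter
      (isClosed_closure.preimage (continuous_snd.comp continuous_subtype_val))
  · rintro ⟨⟨x, y⟩, hxy⟩ ⟨hx, hy⟩
    rw [mem_closure_iff]
    intro o ho hzo
    obtain ⟨W, hW, rfl⟩ := isOpen_induced_iff.1 ho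
    obtain ⟨u, v, hu, hv, hxu, hyv, huv⟩ := isOpen_prod_iff.1 hW x y hzo
    obtain ⟨u', v', hu', hv', hxu', hyv', hd⟩ := t2_separation (show x ≠ y from hxy)
    obtain ⟨a, ha, haD⟩ := mem_closure_iff.1 hx (u ∩ u') (hu.inter hu') ⟨hxu, hxu'⟩
    obtain ⟨b, hb, hbD⟩ := mem_closure_iff.1 hy (v ∩ v') (hv.inter hv') ⟨hyv, hyv'⟩
    have hab : a ≠ b := fun h => disjoint_left.1 hd ha.2 (h ▸ hb.2)
    exact ⟨⟨(a, b), hab⟩, huv ⟨ha.1, hb.1⟩, haD, hbD⟩

/-- the points of the closure of a discrete set are coded by sets of natural numbers -/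
theorem code_closure [T2Space X] (hX : DiscretelyLindelof (Off X)) {D : Set X}
    (hD : DiscreteTopology D) : ∃ g : X → Set ℕ, InjOn g (closure D) := by
  have hL := lindelof_square hX hD
  have hsep : ∀ z : Off X, ∃ U V : Set X, IsOpen U ∧ IsOpen V ∧ z.1.1 ∈ U ∧ z.1.2 ∈ V ∧
      Disjoint U V := fun z => t2_separation z.2
  choose U V hU hV hzU hzV hd using hsep
  rcases isEmpty_or_nonempty (Off X) with he | hne
  · refine ⟨fun _ => ∅, fun x _ y _ _ => ?_⟩
    by_contra hxy
    exact he.elim ⟨(x, y), hxy⟩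
  obtain ⟨f, hf⟩ := hL.indexed_countable_subcover
    (fun z => {w : Off X | w.1.1 ∈ U z ∧ w.1.2 ∈ V z})
    (fun z => ((hU z).preimage (continuous_fst.comp continuous_subtype_val)).inter
        ((hV z).preimage (continuous_snd.comp continuous_subtype_val)))
    (fun z _ => mem_iUnion.2 ⟨z, hzU z, hzV z⟩)
  refine ⟨fun x => {n | x ∈ U (f n)}, fun x hx y hy hxy => ?_⟩
  by_contra hne
  obtain ⟨n, hn1, hn2⟩ := mem_iUnion.1 (hf (show (⟨(x, y), hne⟩ : Off X) ∈ _ from ⟨hx, hy⟩))
  have h1 : n ∈ {n | x ∈ U (f n)} := hn1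
  have hxy' : {n | x ∈ U (f n)} = {n | y ∈ U (f n)} := hxy
  rw [hxy'] at h1
  exact disjoint_left.1 (hd (f n)) h1 hn2

/-- every point is an intersection of a family of open sets indexed by `Set ℕ ⊕ ℕ` -/
theorem pseudo_base [T2Space X] (hX : DiscretelyLindelof (Off X)) (p : X) :
    ∃ V : Set ℕ ⊕ ℕ → Set X, (∀ j, IsOpen (V j)) ∧ (∀ j, p ∈ V j) ∧
      ∀ x, x ≠ p → ∃ j, x ∉ V j := by
  classical
  have hY := hX.closed (slice_closed p)
  have hsep : ∀ y : {x : X // x ≠ p}, ∃ U V : Set X, IsOpen U ∧ IsOpen V ∧ y.1 ∈ U ∧ p ∈ V ∧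
      Disjoint U V := fun y => t2_separation y.2
  choose U V hU hV hyU hpV hd using hsep
  obtain ⟨A, hA, hcov⟩ := exists_discrete_cover (fun y : {x : X // x ≠ p} => Subtype.val ⁻¹' U y)
    (fun y => (hU y).preimage continuous_subtype_val) (fun y => hyU y)
  obtain ⟨r, hr, hcr⟩ := (hY A hA).elim_countable_subcover
    (fun y : {x : X // x ≠ p} => Subtype.val ⁻¹' U y)
    (fun y => (hU y).preimage continuous_subtype_val)
    (fun y _ => mem_iUnion.2 ⟨y, hyU y⟩)
  have hA' : DiscreteTopology (Subtype.val '' A : Set X) := by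
    rw [discreteTopology_subtype_iff'] at hA ⊢
    rintro _ ⟨y, hy, rfl⟩
    obtain ⟨u, hu, huy⟩ := hA y hy
    obtain ⟨w, hw, rfl⟩ := isOpen_induced_iff.1 hu
    refine ⟨w, hw, ?_⟩
    ext z
    constructor
    · rintro ⟨h2, y', hy', rfl⟩
      have : y' ∈ Subtype.val ⁻¹' w ∩ A := ⟨h2, hy'⟩
      rw [huy, mem_singleton_iff] at this
      rw [this]
      rfl
    · intro h
      rw [mem_singleton_iff] at h
      have : y ∈ Subtype.val ⁻¹' w ∩ A := by
        rw [huy]
        rfl
      rw [h]
      exact ⟨this.1, y, hy, rfl⟩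
  obtain ⟨g, hg⟩ := code_closure hX hA'
  obtain ⟨e, he⟩ := Set.countable_iff_exists_injOn.1 hr
  let W : Set ℕ ⊕ ℕ → Set X := fun j =>
    Sum.elim (fun s => if h : ∃ a ∈ A, g a.1 = s then V h.choose else univ)
      (fun n => if h : ∃ a ∈ r, e a = n then V h.choose else univ) j
  refine ⟨W, ?_, ?_, ?_⟩
  · rintro (s | n)
    · change IsOpen (if h : ∃ a ∈ A, g a.1 = s then V h.choose else univ)
      split_ifs with h
      · exact hV _
      · exact isOpen_univ
    · change IsOpen (if h : ∃ a ∈ r, e a = n then V h.choose else univ)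
      split_ifs with h
      · exact hV _
      · exact isOpen_univ
  · rintro (s | n)
    · change p ∈ (if h : ∃ a ∈ A, g a.1 = s then V h.choose else univ)
      split_ifs with h
      · exact hpV _
      · exact mem_univ _
    · change p ∈ (if h : ∃ a ∈ r, e a = n then V h.choose else univ)
      split_ifs with h
      · exact hpV _
      · exact mem_univ _
  · intro x hx
    rcases hcov ⟨x, hx⟩ with h | ⟨a, ha, hxa⟩
    · obtain ⟨a, ha, hxa⟩ := mem_iUnion₂.1 (hcr h)
      refine ⟨Sum.inr (e a), ?_⟩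
      have hex : ∃ b ∈ r, e b = e a := ⟨a, ha, rfl⟩
      change x ∉ (if h : ∃ b ∈ r, e b = e a then V h.choose else univ)
      rw [dif_pos hex, he hex.choose_spec.1 ha hex.choose_spec.2]
      exact fun h => disjoint_left.1 (hd a) hxa h
    · refine ⟨Sum.inl (g a.1), ?_⟩
      have hex : ∃ b ∈ A, g b.1 = g a.1 := ⟨a, ha, rfl⟩
      change x ∉ (if h : ∃ b ∈ A, g b.1 = g a.1 then V h.choose else univ)
      have h1 : hex.choose = a := by
        apply Subtype.ext
        exact hg (subset_closure (mem_image_of_mem _ hex.choose_spec.1))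
          (subset_closure (mem_image_of_mem _ ha)) hex.choose_spec.2
      rw [dif_pos hex, h1]
      exact fun h => disjoint_left.1 (hd a) hxa h

/-- the cardinality bound -/
theorem card_le [T2Space X] (hX : DiscretelyLindelof (Off X)) :
    #X ≤ 2 ^ (2 ^ ℵ₀ : Cardinal.{u}) := by
  classical
  let _ : LinearOrder X := IsWellOrder.linearOrder (WellOrderingRel (α := X))
  have : WellFoundedLT X := (WellOrderingRel.isWellOrder (α := X)).toIsWellFounded
  choose V hVo hVm hV using fun p => pseudo_base hX p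
  have hξ : ∀ x p : X, ∃ j, p ≠ x → p ∉ V x j := by
    intro x p
    by_cases h : p = x
    · exact ⟨Sum.inr 0, fun h' => absurd h h'⟩
    · obtain ⟨j, hj⟩ := hV x p h
      exact ⟨j, fun _ => hj⟩
  choose ξ hξ' using hξ
  have hG : ∀ D : Set X, ∃ g : X → Set ℕ, DiscreteTopology D → InjOn g (closure D) := by
    intro D
    by_cases h : DiscreteTopology D
    · obtain ⟨g, hg⟩ := code_closure hX h
      exact ⟨g, fun _ => hg⟩
    · exact ⟨fun _ => ∅, fun h' => absurd h' h⟩
  choose G hG' using hG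
  have hinj := code_injective (K := Set ℕ) hVo hVm hξ' hG'
  have h1 := Cardinal.lift_mk_le_lift_mk_of_injective hinj
  rw [Cardinal.lift_uzero] at h1
  refine h1.trans ?_
  have hS : #(Set ℕ) = 𝔠 := by simp
  have hJ : #(Set ℕ ⊕ ℕ) = 𝔠 := by
    rw [mk_sum, lift_uzero, lift_uzero, hS, mk_nat]
    exact continuum_add_aleph0
  have hOK : #(Option (Set ℕ)) = 𝔠 := by
    rw [mk_option, hS]
    exact continuum_add_nat 1 |> fun h => by simpa using h
  have hOJ : #(Option (Set ℕ ⊕ ℕ)) = 𝔠 := by
    rw [mk_option, hJ]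
    exact continuum_add_nat 1 |> fun h => by simpa using h
  have h2 : #(Set (Set ℕ × Set ℕ) × (Set ℕ → Option (Set ℕ ⊕ ℕ)) × Option (Set ℕ)) = 2 ^ 𝔠 := by
    rw [mk_prod, mk_prod, mk_set, mk_prod]
    simp only [lift_uzero]
    rw [← power_def, hS, hOJ, hOK, continuum_mul_self]
    rw [power_self_eq aleph0_le_continuum]
    have h3 : (𝔠 : Cardinal.{0}) ≤ 2 ^ 𝔠 := (cantor _).le
    rw [mul_eq_left (aleph0_le_continuum.trans h3) h3 continuum_ne_zero,
      mul_eq_self (aleph0_le_continuum.trans h3)]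
  rw [h2]
  simp

/-- the step from the file: if `X` is regular and the complement of the diagonal is Lindelof then
the diagonal is a `Gδ` set -/
theorem gdelta_of_lindelof [RegularSpace X] [T2Space X] (hL : LindelofSpace (Off X)) :
    IsGδ (diagonal X) := by
  have hsep : ∀ z : Off X, ∃ U : Set (X × X), IsOpen U ∧ z.1 ∈ U ∧ Disjoint (closure U) (diagonal X) := by
    intro z
    obtain ⟨u, v, hu, hv, hzu, hzv, hd⟩ := t2_separation z.2
    obtain ⟨s, hs, hsc, hsu⟩ := exists_mem_nhds_isClosed_subset (hu.mem_nhds hzu)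
    obtain ⟨t, ht, htc, htv⟩ := exists_mem_nhds_isClosed_subset (hv.mem_nhds hzv)
    refine ⟨interior s ×ˢ interior t, isOpen_interior.prod isOpen_interior,
      ⟨mem_interior_iff_mem_nhds.2 hs, mem_interior_iff_mem_nhds.2 ht⟩, ?_⟩
    have h1 : closure (interior s ×ˢ interior t) ⊆ s ×ˢ t :=
      closure_minimal (prod_mono interior_subset interior_subset) (hsc.prod htc)
    rw [disjoint_left]
    rintro ⟨a, b⟩ hab h
    have hab' : a = b := h
    have h2 := h1 hab
    subst hab'
    exact disjoint_left.1 hd (hsu h2.1) (htv h2.2)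
  choose U hU hzU hd using hsep
  obtain ⟨r, hr, hcr⟩ := (isLindelof_univ (X := Off X)).elim_countable_subcover
    (fun z => Subtype.val ⁻¹' U z) (fun z => (hU z).preimage continuous_subtype_val)
    (fun z _ => mem_iUnion.2 ⟨z, hzU z⟩)
  have e : diagonal X = ⋂ z ∈ r, (closure (U z))ᶜ := by
    ext ⟨a, b⟩
    constructor
    · intro h
      refine mem_iInter₂.2 fun z _ hcl => disjoint_left.1 (hd z) hcl h
    · intro h
      by_contra hne
      obtain ⟨z, hz, hz'⟩ := mem_iUnion₂.1 (hcr (mem_univ (⟨(a, b), hne⟩ : Off X)))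
      exact mem_iInter₂.1 h z hz (subset_closure hz')
  rw [e]
  exact IsGδ.biInter hr fun z _ => isClosed_closure.isOpen_compl.isGδ

/-- If `X` has a network of cardinality less than `ℵ_ω` then the complement of the diagonal is
Lindelof. -/
theorem lindelof_of_network (hX : DiscretelyLindelof (Off X)) {I : Type u} (N : I → Set X)
    (hN : ∀ U : Set X, IsOpen U → ∀ x ∈ U, ∃ i, x ∈ N i ∧ N i ⊆ U)
    (hI : #I < ℵ_ Ordinal.omega0) : LindelofSpace (Off X) := by
  classical
  rw [← isLindelof_univ_iff]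
  refine isLindelof_of_countable_subcover fun {ι} U hU hcov => ?_
  have hcov' : ∀ z, ∃ i, z ∈ U i := fun z => mem_iUnion.1 (hcov (mem_univ z))
  let P : I × I → ι → Prop := fun q i => ∀ z : Off X, z.1.1 ∈ N q.1 → z.1.2 ∈ N q.2 → z ∈ U i
  let V : I × I → Set (Off X) := fun q => if h : ∃ i, P q i then U h.choose else ∅
  have hcard : #(I × I) < ℵ_ Ordinal.omega0 := by
    rw [mk_prod, lift_id]
    exact mul_lt_of_lt (aleph0_le_aleph _) hI hI
  obtain ⟨r, hr, hcr⟩ := countable_subcover hX V (fun q => by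
      change IsOpen (if h : ∃ i, P q i then U h.choose else ∅)
      split_ifs with h
      · exact hU _
      · exact isOpen_empty) (fun z => by
      obtain ⟨i, hi⟩ := hcov' z
      obtain ⟨W, hW, hWU⟩ := isOpen_induced_iff.1 (hU i)
      have hzW : z.1 ∈ W := by
        have : z ∈ Subtype.val ⁻¹' W := by rw [hWU]; exact hi
        exact this
      obtain ⟨u, v, hu, hv, hzu, hzv, huv⟩ := isOpen_prod_iff.1 hW z.1.1 z.1.2 hzW
      obtain ⟨a, ha, hau⟩ := hN u hu _ hzu
      obtain ⟨b, hb, hbv⟩ := hN v hv _ hzv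
      have hex : ∃ i, P (a, b) i := by
        refine ⟨i, fun w h1 h2 => ?_⟩
        have : w ∈ Subtype.val ⁻¹' W := huv ⟨hau h1, hbv h2⟩
        rwa [hWU] at this
      refine ⟨(a, b), ?_⟩
      change z ∈ (if h : ∃ i, P (a, b) i then U h.choose else ∅)
      rw [dif_pos hex]
      exact hex.choose_spec z ha hb) hcard
  rcases isEmpty_or_nonempty ι with he | hne
  · exact ⟨∅, countable_empty, fun z _ => he.elim (hcov' z).choose⟩
  refine ⟨(fun q : I × I => if h : ∃ i, P q i then h.choose else Classical.choice hne) '' r,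
    hr.image _, fun z _ => ?_⟩
  obtain ⟨q, hq, hz⟩ := hcr z
  have hz' : z ∈ (if h : ∃ i, P q i then U h.choose else ∅) := hz
  by_cases h : ∃ i, P q i
  · rw [dif_pos h] at hz'
    refine mem_iUnion₂.2 ⟨_, mem_image_of_mem _ hq, ?_⟩
    rw [dif_pos h]
    exact hz'
  · rw [dif_neg h] at hz'
    exact absurd hz' (notMem_empty z)

end Pool.Agent.Helper44.DL
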